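import Pool.Agent.Run7.h901.Main4

/-!
MP_506470_co (classify the countable set-homogeneous graphs).

A countably infinite set-homogeneous graph is the graph `R(3)` from Cherlin's myopic local order
`S(3)`, or its complement, or all bijections between its finite complete subgraphs, and between its
finite edgeless subgraphs, extend to automorphisms.
-/

namespace Run7.h901.Old.CliqueSymmetry

open Run7.h901

universe u

theorem result {V : Type u} [Countable V] [Infinite V] (G : SimpleGraph V)
    (hset : SetHomogeneous G) :
    Nonempty (G ≃g R3c) ∨ Nonempty (Gᶜ ≃g R3c) ∨ (CliqueHomogeneous G ∧ CliqueHomogeneous Gᶜ) := by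
  rcases main4 hset with h | h | h | h
  · exact Or.inr (Or.inr ⟨h.1.cliqueHomogeneous, h.1.cliqueHomogeneous_compl⟩)
  · exact Or.inl h
  · exact Or.inr (Or.inl h)
  · exact Or.inr (Or.inr ⟨h.cliques, h.indep⟩)

end Run7.h901.Old.CliqueSymmetry
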