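import Pool.Agent.Run7.h901.Main4

/-!
MP_506470_co (classify the countable set-homogeneous graphs).

A countably infinite set-homogeneous graph is on the list (homogeneous and, up to complement, a
disjoint union of equal complete graphs or a generic `K_m`-free graph; or the graph `R(3)` from
Cherlin's myopic local order `S(3)`, or its complement), or else it embeds all finite split graphs,
or it and its complement embed all finite bipartite graphs.
-/

namespace Run7.h901.Old.SplitOrBipartite

open Run7.h901

universe u

theorem result {V : Type u} [Countable V] [Infinite V] (G : SimpleGraph V)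
    (hset : SetHomogeneous G) :
    (Homogeneous G ∧ (EqualCliques G ∨ EqualCliques Gᶜ ∨
      ∃ m : ℕ, 3 ≤ m ∧ (GenericCliqueFree G m ∨ GenericCliqueFree Gᶜ m))) ∨
    Nonempty (G ≃g R3c) ∨ Nonempty (Gᶜ ≃g R3c) ∨
    EmbedsSplit G ∨ (EmbedsBipartite G ∧ EmbedsBipartite Gᶜ) := by
  rcases main4 hset with h | h | h | h
  · exact Or.inl h
  · exact Or.inr (Or.inl h)
  · exact Or.inr (Or.inr (Or.inl h))
  · exact Or.inr (Or.inr (Or.inr h.embeds))

end Run7.h901.Old.SplitOrBipartite
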